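import Pool.Agent.Results.MP_4ffbf9_nt.DeterminantCount

/-!
# The number of the sum terms of the solutions
-/

set_option autoImplicit false

open Finset

namespace Pool.Agent.Helper42.ZV

open Pool.Agent.Results.MP_4ffbf9_nt.DeterminantCount (Sol)

open Classical in
theorem count_of {A B C : ℕ} {M θ : ℝ} {I : Set ℝ}
    (h : ∀ ε : ℝ, 0 < ε → ∃ K : ℝ, ∀ N : ℕ, 1 ≤ N →
      (Sol A B C M I ∩ {t : ℕ × ℕ × ℕ | t.2.2 ≤ N}).Finite ∧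
      ((Sol A B C M I ∩ {t : ℕ × ℕ × ℕ | t.2.2 ≤ N}).ncard : ℝ) ≤ K * (N : ℝ) ^ (θ + ε)) :
    ∀ ε : ℝ, 0 < ε → ∃ K : ℝ, ∀ N : ℕ, 1 ≤ N →
      (((Ioc 0 N).filter (fun Z => Z ∈ {Z : ℕ | ∃ X Y, (X, Y, Z) ∈ Sol A B C M I})).card : ℝ) ≤
        K * (N : ℝ) ^ (θ + ε) := by
  intro ε hε
  obtain ⟨K, hK⟩ := h ε hε
  refine ⟨K, fun N hN => ?_⟩
  obtain ⟨hfin, hcard⟩ := hK N hN
  refine le_trans ?_ hcard
  rw [Set.ncard_eq_toFinset_card _ hfin]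
  refine Nat.cast_le.2 ((card_le_card (t := hfin.toFinset.image (fun w => w.2.2)) ?_).trans
    card_image_le)
  intro Z hZ
  rw [mem_filter, mem_Ioc] at hZ
  obtain ⟨h1, X, Y, hXY⟩ := hZ
  rw [mem_image]
  refine ⟨(X, Y, Z), ?_, rfl⟩
  rw [Set.Finite.mem_toFinset]
  exact ⟨hXY, h1.2⟩

end Pool.Agent.Helper42.ZV
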